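import Mathlib

/-!
# MP_b7645d_gt : the isoperimetric profile of the cube is not eventually constant in the dimension

Definitions and interfaces.  See `Pool/Agent/H194/Cube/PLAN.md` for the paper proof.
-/

set_option autoImplicit false

namespace Pool.Agent.H194.Cube

open MeasureTheory Set Filter Topology ProbabilityTheory
open scoped ContDiff ENNReal

/-! ## Calculus on `Fin n → ℝ` -/

/-- partial derivative -/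
noncomputable def D {n : ℕ} (f : (Fin n → ℝ) → ℝ) (i : Fin n) (x : Fin n → ℝ) : ℝ :=
  fderiv ℝ f x (Pi.single i (1 : ℝ) : Fin n → ℝ)

/-- Euclidean norm of the gradient -/
noncomputable def gn {n : ℕ} (f : (Fin n → ℝ) → ℝ) (x : Fin n → ℝ) : ℝ := √(∑ i, D f i x ^ 2)

/-- total variation over the cube -/
noncomputable def TV {n : ℕ} (f : (Fin n → ℝ) → ℝ) : ℝ := ∫ x in Icc (0 : Fin n → ℝ) 1, gn f x

/-- volume of the superlevel set -/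
noncomputable def Vs {n : ℕ} (u : (Fin n → ℝ) → ℝ) (s : ℝ) : ℝ :=
  (volume {x : Fin n → ℝ | x ∈ Icc (0 : Fin n → ℝ) 1 ∧ s < u x}).toReal

/-- mean square deviation of the volumes of the superlevel sets from `lam` -/
noncomputable def G {n : ℕ} (lam : ℝ) (u : (Fin n → ℝ) → ℝ) : ℝ :=
  ∫ s in (0 : ℝ)..1, (Vs u s - lam) ^ 2

/-- 2-periodic in every coordinate -/
def Per {n : ℕ} (f : (Fin n → ℝ) → ℝ) : Prop := ∀ x i, f (x + Pi.single i 2) = f x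

/-- even in the `i`-th coordinate -/
def Evn {n : ℕ} (f : (Fin n → ℝ) → ℝ) (i : Fin n) : Prop :=
  ∀ x, f (Function.update x i (-x i)) = f x

/-- odd in the `i`-th coordinate -/
def Odd' {n : ℕ} (f : (Fin n → ℝ) → ℝ) (i : Fin n) : Prop :=
  ∀ x, f (Function.update x i (-x i)) = -f x

/-- 2-periodic and even in every coordinate -/
def Sym {n : ℕ} (f : (Fin n → ℝ) → ℝ) : Prop := Per f ∧ ∀ i, Evn f i

/-- unit normal of the level sets (outward of `{f large}`) -/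
noncomputable def Nn {n : ℕ} (f : (Fin n → ℝ) → ℝ) (i : Fin n) (x : Fin n → ℝ) : ℝ :=
  -(D f i x / gn f x)

/-- `‖∇²f‖² - |∇²f N|²` -/
noncomputable def Asq {n : ℕ} (f : (Fin n → ℝ) → ℝ) (x : Fin n → ℝ) : ℝ :=
  ∑ i, ∑ j, D (D f i) j x ^ 2 - ∑ j, (∑ i, Nn f i x * D (D f i) j x) ^ 2

/-! ## The one-dimensional Gaussian -/

/-- Gaussian density -/
noncomputable def phi (t : ℝ) : ℝ := Real.exp (-t ^ 2 / 2) / √(2 * Real.pi)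

/-- Gaussian distribution function -/
noncomputable def Phi (t : ℝ) : ℝ := ∫ s in Iic t, phi s

open Classical in
/-- Gaussian isoperimetric function `φ ∘ Φ⁻¹` on `(0, 1)`, zero outside -/
noncomputable def Iga (s : ℝ) : ℝ := if 0 < s ∧ s < 1 then phi (Function.invFun Phi s) else 0

/-! ## Heat flow -/

/-- standard Gaussian measure on `Fin n → ℝ` -/
noncomputable def gs (n : ℕ) : Measure (Fin n → ℝ) := Measure.pi fun _ => gaussianReal 0 1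

/-- Gaussian average at scale `σ` (heat semigroup at time `σ ^ 2 / 2`) -/
noncomputable def heat {n : ℕ} (σ : ℝ) (g : (Fin n → ℝ) → ℝ) (x : Fin n → ℝ) : ℝ :=
  ∫ z, g (x + σ • z) ∂gs n

/-! ## The profile -/

/-- relative perimeter in the open cube -/
noncomputable def Peri (d : ℕ) (E : Set (Fin d → ℝ)) : ENNReal :=
  ⨆ (φ : (Fin d → ℝ) → (Fin d → ℝ)) (_ : ContDiff ℝ 1 φ)
    (_ : HasCompactSupport φ)
    (_ : tsupport φ ⊆ {x : Fin d → ℝ | ∀ i, x i ∈ Set.Ioo (0:ℝ) 1})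
    (_ : ∀ x, ∑ i, (φ x i) ^ 2 ≤ 1),
    ENNReal.ofReal (∫ x in E, ∑ i, fderiv ℝ φ x (Pi.single i 1) i)

/-- isoperimetric profile of the open cube `(0,1)^d` -/
noncomputable def Iprof (d : ℕ) (t : ℝ) : ENNReal :=
  ⨅ (E : Set (Fin d → ℝ)) (_ : MeasurableSet E)
    (_ : E ⊆ {x : Fin d → ℝ | ∀ i, x i ∈ Set.Ioo (0:ℝ) 1})
    (_ : MeasureTheory.volume E = ENNReal.ofReal t), Peri d E

/-- The lower bound by a parabola, in the form used for smooth functions, in ALL dimensions. -/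
def Hyp (P H C lam : ℝ) : Prop :=
  ∀ (d : ℕ) (u : (Fin d → ℝ) → ℝ), 1 ≤ d → ContDiff ℝ 1 u → (∀ x, 0 ≤ u x ∧ u x ≤ 1) →
    P + H * ((∫ x in Icc (0 : Fin d → ℝ) 1, u x) - lam) - C * G lam u ≤ TV u

/-- smooth symmetric near-minimisers -/
structure NearMin (n : ℕ) (lam P δ : ℝ) (E : Set (Fin n → ℝ)) (g : (Fin n → ℝ) → ℝ) : Prop where
  meas : MeasurableSet E
  sub : E ⊆ Icc (0 : Fin n → ℝ) 1
  vol : volume E = ENNReal.ofReal lam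
  smooth : ContDiff ℝ ∞ g
  sym : Sym g
  mem : ∀ x, 0 ≤ g x ∧ g x ≤ 1
  tv : TV g ≤ P + δ
  l1 : ∫ x in Icc (0 : Fin n → ℝ) 1, |g x - E.indicator (fun _ => (1 : ℝ)) x| ≤ δ

/-! ## Interfaces: the profile -/

/-- monotone in the dimension: `E ↦ E × (0,1)` -/
def S_mono : Prop := ∀ (d : ℕ) (t : ℝ), 0 ≤ t → t ≤ 1 → Iprof (d + 1) t ≤ Iprof d t

/-- complements -/
def S_compl : Prop := ∀ (d : ℕ) (t : ℝ), 0 ≤ t → t ≤ 1 → Iprof d (1 - t) ≤ Iprof d t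

/-- product with `(0,1)^2` minus the corner square `(0,r]^2` -/
def S_prod : Prop := ∀ (d : ℕ) (t r : ℝ), 0 ≤ t → t ≤ 1 → 0 < r → r < 1 →
  Iprof (d + 2) (t * (1 - r ^ 2)) ≤ Iprof d t + ENNReal.ofReal (2 * r)

/-- corner cubes in dimension 3 -/
def S_box : Prop := ∀ r : ℝ, 0 ≤ r → r ≤ 1 → Iprof 3 (r ^ 3) ≤ ENNReal.ofReal (3 * r ^ 2)

/-- slabs -/
def S_upper : Prop := ∀ (d : ℕ) (t : ℝ), 1 ≤ d → 0 ≤ t → t ≤ 1 → Iprof d t ≤ 1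

/-- superlinear lower bound, uniform in the dimension -/
def S_super : Prop := ∀ K : ℝ, ∃ b : ℝ, 0 < b ∧ b < 1 / 2 ∧
  ∀ d : ℕ, 1 ≤ d → ENNReal.ofReal (K * b) ≤ Iprof d b

/-- the comparison profile -/
noncomputable def Jf (y : ℝ) : ℝ := 1 / 3 * y * √(1 - Real.log y)

/-- one-dimensional functional inequality -/
def S_oneD : Prop := ∀ a a' : ℝ → ℝ, (∀ x, HasDerivAt a (a' x) x) → Continuous a' →
  (∀ x, 0 < a x ∧ a x < 1) →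
  Jf (∫ x in (0 : ℝ)..1, a x) ≤ ∫ x in (0 : ℝ)..1, √(Jf (a x) ^ 2 + a' x ^ 2)

/-- explicit form of `S_super` -/
def S_super' : Prop := ∀ (d : ℕ) (b : ℝ), 1 ≤ d → 0 < b → b < 1 →
  ENNReal.ofReal (1 / 3 * b * (√(1 - Real.log b) - 1)) ≤ Iprof d b

/-- choice of the volume `lam` and of the touching parabola -/
def S_touch : Prop := ∃ lam P H C : ℝ, 0 < lam ∧ lam < 1 ∧ 0 < P ∧ 30 ≤ H ∧ 0 ≤ C ∧
  (∀ d : ℕ, 1 ≤ d → ∀ v ∈ Icc (0 : ℝ) 1,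
    ENNReal.ofReal (P + H * (v - lam) - C * (v - lam) ^ 2) ≤ Iprof d v) ∧
  (∀ N : ℕ, (∀ d ≥ N, Iprof d lam = Iprof N lam) →
    ∃ n : ℕ, 1 ≤ n ∧ Iprof n lam = ENNReal.ofReal P)

/-- coarea inequality: from the profile to smooth functions -/
def S_coarea : Prop := ∀ P H C lam : ℝ, 0 ≤ C →
  (∀ d : ℕ, 1 ≤ d → ∀ v ∈ Icc (0 : ℝ) 1,
    ENNReal.ofReal (P + H * (v - lam) - C * (v - lam) ^ 2) ≤ Iprof d v) → Hyp P H C lam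

/-- existence of smooth symmetric near-minimisers -/
def S_nm : Prop := ∀ (n : ℕ) (lam P : ℝ), 1 ≤ n → 0 < lam → lam < 1 → 0 ≤ P →
  Iprof n lam = ENNReal.ofReal P → ∀ δ > 0, ∃ E g, NearMin n lam P δ E g

/-! ## Interfaces: heat flow and periodic functions -/

/-- boundedness etc. of continuous periodic functions, integrals over the period cell -/
structure BoxFacts : Prop where
  bdd : ∀ (n : ℕ) (g : (Fin n → ℝ) → ℝ), Continuous g → Per g → ∃ M, ∀ x, |g x| ≤ M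
  shift : ∀ (n : ℕ) (g : (Fin n → ℝ) → ℝ) (z : Fin n → ℝ), Continuous g → Per g →
    ∫ x in Icc (-1 : Fin n → ℝ) 1, g (x + z) = ∫ x in Icc (-1 : Fin n → ℝ) 1, g x
  half : ∀ (n : ℕ) (g : (Fin n → ℝ) → ℝ), Continuous g → (∀ i, Evn g i) →
    ∫ x in Icc (-1 : Fin n → ℝ) 1, g x = 2 ^ n * ∫ x in Icc (0 : Fin n → ℝ) 1, g x
  div : ∀ (n : ℕ) (g : (Fin n → ℝ) → ℝ) (i : Fin n), ContDiff ℝ 1 g → Per g →
    ∫ x in Icc (-1 : Fin n → ℝ) 1, D g i x = 0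

/-- parity and periodicity of derivatives -/
structure SymFacts : Prop where
  per : ∀ (n : ℕ) (g : (Fin n → ℝ) → ℝ) (i : Fin n), Per g → Per (D g i)
  evn_same : ∀ (n : ℕ) (g : (Fin n → ℝ) → ℝ) (i : Fin n), ContDiff ℝ 1 g → Evn g i →
    Odd' (D g i) i
  odd_same : ∀ (n : ℕ) (g : (Fin n → ℝ) → ℝ) (i : Fin n), ContDiff ℝ 1 g → Odd' g i →
    Evn (D g i) i
  evn_diff : ∀ (n : ℕ) (g : (Fin n → ℝ) → ℝ) (i j : Fin n), i ≠ j → ContDiff ℝ 1 g → Evn g i →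
    Evn (D g j) i
  odd_diff : ∀ (n : ℕ) (g : (Fin n → ℝ) → ℝ) (i j : Fin n), i ≠ j → ContDiff ℝ 1 g → Odd' g i →
    Odd' (D g j) i
  odd_zero : ∀ (n : ℕ) (g : (Fin n → ℝ) → ℝ) (i : Fin n) (x : Fin n → ℝ), Per g → Odd' g i →
    (x i = 0 ∨ x i = 1) → g x = 0

/-- heat flow, basic part -/
structure HeatA : Prop where
  per : ∀ (n : ℕ) (σ : ℝ) (g : (Fin n → ℝ) → ℝ), Per g → Per (heat σ g)
  evn : ∀ (n : ℕ) (σ : ℝ) (g : (Fin n → ℝ) → ℝ) (i : Fin n), Evn g i → Evn (heat σ g) i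
  odd : ∀ (n : ℕ) (σ : ℝ) (g : (Fin n → ℝ) → ℝ) (i : Fin n), Odd' g i → Odd' (heat σ g) i
  mono : ∀ (n : ℕ) (σ : ℝ) (g k : (Fin n → ℝ) → ℝ) (x : Fin n → ℝ), Continuous g → Per g →
    Continuous k → Per k → (∀ y, g y ≤ k y) → heat σ g x ≤ heat σ k x
  bound : ∀ (n : ℕ) (σ M : ℝ) (g : (Fin n → ℝ) → ℝ) (x : Fin n → ℝ), Continuous g → Per g →
    (∀ y, |g y| ≤ M) → |heat σ g x| ≤ M
  cont : ∀ (n : ℕ) (g : (Fin n → ℝ) → ℝ), Continuous g → Per g →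
    Continuous (fun p : ℝ × (Fin n → ℝ) => heat p.1 g p.2)
  zero : ∀ (n : ℕ) (g : (Fin n → ℝ) → ℝ) (x : Fin n → ℝ), heat 0 g x = g x
  pos : ∀ (n : ℕ) (σ : ℝ) (g : (Fin n → ℝ) → ℝ) (x : Fin n → ℝ), 0 < σ → Continuous g → Per g →
    (∀ y, 0 ≤ g y) → (∃ y, 0 < g y) → 0 < heat σ g x
  const : ∀ (n : ℕ) (σ c : ℝ) (x : Fin n → ℝ), heat σ (fun _ => c) x = c
  add : ∀ (n : ℕ) (σ : ℝ) (g k : (Fin n → ℝ) → ℝ) (x : Fin n → ℝ), Continuous g → Per g →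
    Continuous k → Per k → heat σ (fun y => g y + k y) x = heat σ g x + heat σ k x
  smul : ∀ (n : ℕ) (σ c : ℝ) (g : (Fin n → ℝ) → ℝ) (x : Fin n → ℝ),
    heat σ (fun y => c * g y) x = c * heat σ g x

/-- heat flow, derivatives -/
structure HeatB : Prop where
  comm : ∀ (n : ℕ) (σ : ℝ) (g : (Fin n → ℝ) → ℝ) (i : Fin n) (x : Fin n → ℝ), ContDiff ℝ 1 g →
    Per g → D (heat σ g) i x = heat σ (D g i) x
  smooth1 : ∀ (n : ℕ) (σ : ℝ) (g : (Fin n → ℝ) → ℝ), ContDiff ℝ 1 g → Per g →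
    ContDiff ℝ 1 (heat σ g)
  smooth : ∀ (n : ℕ) (σ : ℝ) (g : (Fin n → ℝ) → ℝ), ContDiff ℝ ∞ g → Per g →
    ContDiff ℝ ∞ (heat σ g)
  jensen : ∀ (n : ℕ) (σ : ℝ) (g : (Fin n → ℝ) → ℝ) (x : Fin n → ℝ), ContDiff ℝ 1 g → Per g →
    gn (heat σ g) x ≤ heat σ (gn g) x

/-- heat flow, Gaussian integration by parts -/
structure HeatC : Prop where
  stein : ∀ (n : ℕ) (σ : ℝ) (g : (Fin n → ℝ) → ℝ) (i : Fin n) (x : Fin n → ℝ), ContDiff ℝ 1 g →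
    Per g → ∫ z, g (x + σ • z) * z i ∂gs n = σ * heat σ (D g i) x
  d1 : ∀ (n : ℕ) (σ M : ℝ) (g : (Fin n → ℝ) → ℝ) (i : Fin n) (x : Fin n → ℝ), 0 < σ →
    ContDiff ℝ 1 g → Per g → (∀ y, |g y| ≤ M) → |D (heat σ g) i x| ≤ M / σ
  d2 : ∀ (n : ℕ) (σ M : ℝ) (g : (Fin n → ℝ) → ℝ) (i j : Fin n) (x : Fin n → ℝ), 0 < σ →
    ContDiff ℝ ∞ g → Per g → (∀ y, |g y| ≤ M) → |D (D (heat σ g) i) j x| ≤ 2 * M / σ ^ 2
  time : ∀ (n : ℕ) (σ : ℝ) (g : (Fin n → ℝ) → ℝ) (x : Fin n → ℝ), ContDiff ℝ ∞ g → Per g →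
    HasDerivAt (fun s => heat s g x) (σ * heat σ (fun y => ∑ i, D (D g i) i y) x) σ

/-- heat flow is self-adjoint on the period cell -/
structure HeatD : Prop where
  adj : ∀ (n : ℕ) (σ : ℝ) (g k : (Fin n → ℝ) → ℝ), Continuous g → Per g → Continuous k → Per k →
    ∫ x in Icc (-1 : Fin n → ℝ) 1, heat σ g x * k x =
      ∫ x in Icc (-1 : Fin n → ℝ) 1, g x * heat σ k x
  /-- on the unit cube, for symmetric functions -/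
  mass : ∀ (n : ℕ) (σ : ℝ) (g : (Fin n → ℝ) → ℝ), Continuous g → Sym g →
    ∫ x in Icc (0 : Fin n → ℝ) 1, heat σ g x = ∫ x in Icc (0 : Fin n → ℝ) 1, g x

/-- the one-dimensional Gaussian functions -/
structure GaussFacts : Prop where
  mem : ∀ t, 0 < Phi t ∧ Phi t < 1
  deriv : ∀ t, HasDerivAt Phi (phi t) t
  surj : ∀ s : ℝ, 0 < s → s < 1 → ∃ t, Phi t = s
  mono : StrictMono Phi
  neg : ∀ t, Phi (-t) = 1 - Phi t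
  iga : ∀ t, Iga (Phi t) = phi t
  iga_cont : Continuous Iga
  iga_sqrt : ∀ s : ℝ, 0 ≤ s → Iga s ≤ √s
  iga_symm : ∀ s : ℝ, Iga (1 - s) = Iga s
  iga_nonneg : ∀ s : ℝ, 0 ≤ Iga s
  iga_pos : ∀ s : ℝ, 0 < s → s < 1 → 0 < Iga s
  iga_deriv : ∀ t, HasDerivAt Iga (-t) (Phi t)
  inv_deriv : ∀ t, HasDerivAt (Function.invFun Phi) (1 / phi t) (Phi t)
  inv_left : ∀ t, Function.invFun Phi (Phi t) = t
  inv_smooth : ContDiffOn ℝ ∞ (Function.invFun Phi) (Ioo 0 1)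

/-- gradient bound (bathtub principle) -/
def S_grad : Prop := ∀ (n : ℕ) (σ : ℝ) (g : (Fin n → ℝ) → ℝ) (x : Fin n → ℝ), 0 < σ →
  ContDiff ℝ 1 g → Per g → (∀ y, 0 ≤ g y ∧ g y ≤ 1) → 0 < heat σ g x → heat σ g x < 1 →
  σ * gn (heat σ g) x ≤ Iga (heat σ g x)

/-- `L¹` distance -/
def S_L1 : Prop := ∀ (n : ℕ) (σ : ℝ) (g : (Fin n → ℝ) → ℝ), 0 ≤ σ → ContDiff ℝ 1 g → Sym g →
  ∫ x in Icc (0 : Fin n → ℝ) 1, |heat σ g x - g x| ≤ σ * TV g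

/-- integral of the Gaussian isoperimetric function along the flow -/
def S_Y : Prop := ∀ (n : ℕ) (lam P δ σ : ℝ) (E : Set (Fin n → ℝ)) (g : (Fin n → ℝ) → ℝ),
  1 ≤ n → 0 < σ → 0 < δ → NearMin n lam P δ E g →
  ∫ x in Icc (0 : Fin n → ℝ) 1, Iga (heat σ g x) ≤ √δ + σ * TV g

/-- the Gaussian (central limit) lift -/
def S_clt : Prop := ∀ P H C lam : ℝ, Hyp P H C lam → 0 ≤ H → 0 ≤ C →
  ∀ (n : ℕ) (h : (Fin n → ℝ) → ℝ), 1 ≤ n → ContDiff ℝ 1 h →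
  P + H * ((∫ x in Icc (0 : Fin n → ℝ) 1, Phi (h x)) - lam)
    - C * ((∫ x in Icc (0 : Fin n → ℝ) 1, Phi (h x)) - lam) ^ 2 ≤
    ∫ x in Icc (0 : Fin n → ℝ) 1, phi (h x) * √(Real.pi ^ 2 + gn h x ^ 2)

/-- upper bound for the loss of total variation, with the sharp constant -/
def S_W1 : Prop := ∀ P H C lam : ℝ, Hyp P H C lam → 0 ≤ P → 0 ≤ H → 0 ≤ C → 0 < lam → lam < 1 →
  ∀ (n : ℕ) (δ : ℝ) (E : Set (Fin n → ℝ)) (g : (Fin n → ℝ) → ℝ), 1 ≤ n → 0 < δ → δ ≤ 1 →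
  δ < lam → δ < 1 - lam → NearMin n lam P δ E g → ∀ σ : ℝ, 0 < σ → σ ≤ 1 →
  (TV g - TV (heat σ g)) * (1 - 2 * Real.pi * σ - Real.pi ^ 2 * σ ^ 2) ≤
    Real.pi ^ 2 * σ ^ 2 / 2 * (P + δ) + (1 + H + C) * δ + 25 * √δ

/-- dissipation of the total variation -/
def S_diss : Prop := ∀ (n : ℕ) (g : (Fin n → ℝ) → ℝ), ContDiff ℝ ∞ g → Sym g →
  ∀ σ₀ σ₁ L c : ℝ, 0 < σ₀ → σ₀ < σ₁ → 0 < c →
  (∀ σ ∈ Icc σ₀ σ₁, ∃ θ : (Fin n → ℝ) → ℝ, Measurable θ ∧ (∀ x, 0 ≤ θ x ∧ θ x ≤ 1) ∧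
    (∀ x, θ x ≠ 0 → c ≤ gn (heat σ g) x) ∧
    L ≤ ∫ x in Icc (0 : Fin n → ℝ) 1, θ x * (Asq (heat σ g) x / gn (heat σ g) x)) →
  L * (σ₁ ^ 2 - σ₀ ^ 2) / 2 ≤ TV (heat σ₀ g) - TV (heat σ₁ g)

/-! ## Interfaces: stationarity -/

/-- first variation of the total variation along a vector field -/
noncomputable def FV {n : ℕ} (g : (Fin n → ℝ) → ℝ) (X : Fin n → (Fin n → ℝ) → ℝ) : ℝ :=
  ∫ x in Icc (0 : Fin n → ℝ) 1, (gn g x * ∑ i, D (X i) i x -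
    ∑ i, ∑ j, D g i x * D g j x / gn g x * D (X i) j x)

/-- the same for a field with one component -/
noncomputable def fv {n : ℕ} (g : (Fin n → ℝ) → ℝ) (i : Fin n) (y : (Fin n → ℝ) → ℝ) : ℝ :=
  ∫ x in Icc (0 : Fin n → ℝ) 1, (gn g x * D y i x -
    ∑ j, D g i x * D g j x / gn g x * D y j x)

/-- approximate stationarity of near-minimisers under domain variations -/
def S_b1 : Prop := ∀ P H C lam : ℝ, Hyp P H C lam → 0 ≤ P → 0 ≤ H → 0 ≤ C →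
  ∀ (n : ℕ) (K : ℝ), 1 ≤ n → 0 < K → ∃ A : ℝ, 0 ≤ A ∧
  ∀ (δ : ℝ) (E : Set (Fin n → ℝ)) (g : (Fin n → ℝ) → ℝ), 0 < δ → δ ≤ 1 → NearMin n lam P δ E g →
  ∀ X : Fin n → (Fin n → ℝ) → ℝ, (∀ i, ContDiff ℝ 1 (X i)) → (∀ i j x, |D (X i) j x| ≤ K) →
  (∀ i x, x i = 0 → X i x = 0) → (∀ i x, x i = 1 → X i x = 0) →
  |FV g X - H * ∫ x in Icc (0 : Fin n → ℝ) 1, g x * ∑ i, D (X i) i x| ≤ A * √δ

/-- transfer of the first variation from `g` to `heat σ g` -/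
def S_b2 : Prop := ∀ (n : ℕ) (i : Fin n) (σ K : ℝ) (g y : (Fin n → ℝ) → ℝ), 0 < σ → 0 ≤ K →
  ContDiff ℝ ∞ g → Sym g → ContDiff ℝ 1 y → Per y → Odd' y i → (∀ j, j ≠ i → Evn y j) →
  (∀ x, gn y x ≤ K) →
  |fv g i (heat σ y) - fv (heat σ g) i y| ≤ 4 * K * (TV g - TV (heat σ g))

/-- approximate stationarity of `heat σ g` -/
def S_b : Prop := ∀ P H C lam : ℝ, Hyp P H C lam → 0 ≤ P → 0 ≤ H → 0 ≤ C →
  ∀ (n : ℕ) (K : ℝ), 1 ≤ n → 0 < K → ∃ A : ℝ, 0 ≤ A ∧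
  ∀ (δ : ℝ) (E : Set (Fin n → ℝ)) (g : (Fin n → ℝ) → ℝ), 0 < δ → δ ≤ 1 → NearMin n lam P δ E g →
  ∀ (σ : ℝ) (i : Fin n) (y : (Fin n → ℝ) → ℝ), 0 < σ → ContDiff ℝ 1 y → Per y → Odd' y i →
  (∀ j, j ≠ i → Evn y j) → (∀ x, gn y x ≤ K) →
  |fv (heat σ g) i y + H * ∫ x in Icc (0 : Fin n → ℝ) 1, D (heat σ g) i x * y x| ≤
    A * √δ + 4 * K * (TV g - TV (heat σ g))

/-! ## Interfaces: the pointwise inequality and the test field -/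

/-- `a` -/
noncomputable def af (v : ℝ) : ℝ := v * (1 - v ^ 2) * (1 - 4 / 5 * v ^ 2 + 3 / 10 * v ^ 4)
/-- derivative of `af` -/
noncomputable def af' (v : ℝ) : ℝ :=
  1 - 27 / 5 * v ^ 2 + 11 / 2 * v ^ 4 - 21 / 10 * v ^ 6
/-- `ε` -/
noncomputable def ef (v : ℝ) : ℝ := v ^ 3 / 3 - 3 / 10 * v ^ 5
/-- derivative of `ef` -/
noncomputable def ef' (v : ℝ) : ℝ := v ^ 2 - 3 / 2 * v ^ 4

/-- the pointwise inequality (polynomial) -/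
def S_pw : Prop := ∀ v κ H p : ℝ, -1 ≤ v → v ≤ 1 → 30 ≤ H → 0 ≤ p → p ≤ Real.pi →
  (1 - v ^ 2) / 4 * (κ * (2 * af v * af' v) + H * ef' v) ^ 2 + p ^ 2 * v ^ 2 + v ^ 4 ≤
    (p ^ 2 + κ ^ 2) * (1 - v ^ 2) * af v ^ 2 + H * v * (κ * af v ^ 2 + H * ef v)

/-- gluing across the planes `x i ∈ ℤ` -/
def S_glue : Prop := ∀ (n : ℕ) (i : Fin n) (κ κ' : ℝ → ℝ) (B : ℝ) (q : (Fin n → ℝ) → ℝ),
  ContDiff ℝ 1 q → (∀ x, (∃ k : ℤ, x i = (k : ℝ)) → q x = 0 ∧ ∀ j, D q j x = 0) →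
  (∀ t, |κ t| ≤ B ∧ |κ' t| ≤ B) → (∀ t : ℝ, (∀ k : ℤ, t ≠ (k : ℝ)) → HasDerivAt κ (κ' t) t) →
  ContinuousOn κ' {t : ℝ | ∀ k : ℤ, t ≠ (k : ℝ)} →
  ContDiff ℝ 1 (fun x : Fin n → ℝ => κ (x i) * q x) ∧
  ∀ x j, D (fun x : Fin n → ℝ => κ (x i) * q x) j x =
    κ (x i) * D q j x + (if j = i then κ' (x i) * q x else 0)

/-- the odd 2-periodic Riccati function `κ = p cot (p (x + ρ))`, `ρ = (π / p - 1) / 2` on `(0,1)` -/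
def S_kappa : Prop := ∀ p : ℝ, 0 < p → p < Real.pi → ∃ (κ κ' : ℝ → ℝ) (B : ℝ),
  (∀ t, κ (-t) = -κ t) ∧ (∀ t, κ (t + 2) = κ t) ∧ (∀ t, |κ t| ≤ B ∧ |κ' t| ≤ B) ∧
  (∀ t : ℝ, (∀ k : ℤ, t ≠ (k : ℝ)) → HasDerivAt κ (κ' t) t) ∧
  ContinuousOn κ' {t : ℝ | ∀ k : ℤ, t ≠ (k : ℝ)} ∧
  (∀ t : ℝ, 0 < t → t < 1 → κ' t = -(p ^ 2 + κ t ^ 2))

open Classical in
/-- the test field in the `i`-th coordinate direction -/
def S_field : Prop := ∀ (n : ℕ) (H p c M : ℝ) (χ ζ : ℝ → ℝ), 1 ≤ n → 30 ≤ H → 0 < p →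
  p < Real.pi → 0 < c → ContDiff ℝ 1 χ → ContDiff ℝ 1 ζ → (∀ t, 0 ≤ χ t ∧ χ t ≤ 1) →
  (∀ t, 0 ≤ ζ t ∧ ζ t ≤ 1) → (∀ t, |deriv χ t| ≤ M) → (∀ t, |deriv ζ t| ≤ M) →
  (∀ t, t ≤ c → ζ t = 0) → (∀ t, 2 * c ≤ t → ζ t = 1) → ∃ K : ℝ, 0 < K ∧
  ∀ (σ : ℝ) (f : (Fin n → ℝ) → ℝ), 0 < σ → σ ≤ 1 → ContDiff ℝ ∞ f → Sym f →
  (∀ i x, |D f i x| ≤ 1 / σ) → (∀ i j x, |D (D f i) j x| ≤ 2 / σ ^ 2) →
  ∀ i : Fin n, ∃ y : (Fin n → ℝ) → ℝ, ContDiff ℝ 1 y ∧ Per y ∧ Odd' y i ∧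
    (∀ j, j ≠ i → Evn y j) ∧ (∀ x, gn y x ≤ K / σ) ∧
    ∀ x : Fin n → ℝ, 0 < x i → x i < 1 →
      gn f x * D y i x - ∑ j, D f i x * D f j x / gn f x * D y j x + H * (D f i x * y x) ≤
        χ (f x) * ζ (σ * gn f x) * (gn f x * gn (Nn f i) x ^ 2 -
          gn f x * (p ^ 2 * Nn f i x ^ 2 + Nn f i x ^ 4)) +
        K / σ * (if χ (f x) ≠ 0 ∧ σ * gn f x < 2 * c then gn f x else 0)

/-- `|∇f| ∑ |∇N_i|² = (‖∇²f‖² - |∇²f N|²) / |∇f|` -/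
def S_asq : Prop := ∀ (n : ℕ) (f : (Fin n → ℝ) → ℝ) (x : Fin n → ℝ), ContDiff ℝ ∞ f → 0 < gn f x →
  Asq f x / gn f x = gn f x * ∑ i, gn (Nn f i) x ^ 2

open Classical in
/-- the bad part of the layer -/
def S_bad : Prop := ∀ (n : ℕ) (lam P δ σ c : ℝ) (χ : ℝ → ℝ) (E : Set (Fin n → ℝ))
  (g : (Fin n → ℝ) → ℝ), 1 ≤ n → 0 < σ → 0 < δ → 0 < c → δ < lam → δ < 1 - lam → lam < 1 →
  Continuous χ → (∀ t, χ t ≠ 0 → 4 * c ≤ Iga t) → NearMin n lam P δ E g →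
  ∫ x in Icc (0 : Fin n → ℝ) 1,
      (if χ (heat σ g x) ≠ 0 ∧ σ * gn (heat σ g) x < 2 * c then gn (heat σ g) x else 0) ≤
    (TV g - TV (heat σ g)) + √δ / σ

/-- mass of the layer -/
def S_mass : Prop := ∀ P H C lam : ℝ, Hyp P H C lam → 0 ≤ P → 0 ≤ H → 0 ≤ C → 0 < lam → lam < 1 →
  ∀ (n : ℕ) (δ σ m : ℝ) (χ : ℝ → ℝ) (E : Set (Fin n → ℝ)) (g : (Fin n → ℝ) → ℝ), 1 ≤ n →
  0 < σ → 0 < δ → δ ≤ 1 → Continuous χ → (∀ t, 0 ≤ χ t ∧ χ t ≤ 1) →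
  m = ∫ t in (0 : ℝ)..1, χ t → 1 / 2 ≤ m → NearMin n lam P δ E g →
  m * P - 2 * (H + C) * (σ * (P + 1) + δ) ≤
    ∫ x in Icc (0 : Fin n → ℝ) 1, χ (heat σ g x) * gn (heat σ g) x

/-- the total variation decreases -/
def S_dec : Prop := ∀ (n : ℕ) (σ : ℝ) (g : (Fin n → ℝ) → ℝ), ContDiff ℝ 1 g → Sym g →
  TV (heat σ g) ≤ TV g

open Classical in
/-- integrated form of `S_field`, summed over the coordinates -/
def S_sum : Prop := ∀ (n : ℕ) (H p c M : ℝ) (χ ζ : ℝ → ℝ), 1 ≤ n → 30 ≤ H → 0 < p →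
  p < Real.pi → 0 < c → ContDiff ℝ 1 χ → ContDiff ℝ 1 ζ → (∀ t, 0 ≤ χ t ∧ χ t ≤ 1) →
  (∀ t, 0 ≤ ζ t ∧ ζ t ≤ 1) → (∀ t, |deriv χ t| ≤ M) → (∀ t, |deriv ζ t| ≤ M) →
  (∀ t, t ≤ c → ζ t = 0) → (∀ t, 2 * c ≤ t → ζ t = 1) → ∃ K : ℝ, 0 < K ∧
  ∀ (σ : ℝ) (f : (Fin n → ℝ) → ℝ), 0 < σ → σ ≤ 1 → ContDiff ℝ ∞ f → Sym f →
  (∀ i x, |D f i x| ≤ 1 / σ) → (∀ i j x, |D (D f i) j x| ≤ 2 / σ ^ 2) →
  ∃ y : Fin n → (Fin n → ℝ) → ℝ,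
    (∀ i, ContDiff ℝ 1 (y i) ∧ Per (y i) ∧ Odd' (y i) i ∧ (∀ j, j ≠ i → Evn (y i) j) ∧
      ∀ x, gn (y i) x ≤ K / σ) ∧
    (p ^ 2 + 1 / n) * ∫ x in Icc (0 : Fin n → ℝ) 1, χ (f x) * gn f x ≤
      (∫ x in Icc (0 : Fin n → ℝ) 1, χ (f x) * ζ (σ * gn f x) * (Asq f x / gn f x)) -
      ∑ i, (fv f i (y i) + H * ∫ x in Icc (0 : Fin n → ℝ) 1, D f i x * y i x) +
      K / σ * ∫ x in Icc (0 : Fin n → ℝ) 1,
        (if χ (f x) ≠ 0 ∧ σ * gn f x < 2 * c then gn f x else 0)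

/-- the contradiction (main step) -/
def S_main : Prop := ∀ (n : ℕ) (P H C lam : ℝ), 1 ≤ n → 0 < P → 30 ≤ H → 0 ≤ C → 0 < lam →
  lam < 1 → Hyp P H C lam → (∀ δ > 0, ∃ E g, NearMin n lam P δ E g) → False

/-- the frozen negation -/
theorem not_main_of (h1 : S_touch) (h2 : S_coarea) (h3 : S_nm) (h4 : S_main) :
    ¬ ∀ I : ℕ → ℝ → ENNReal,
      (∀ (d : ℕ) (t : ℝ), I d t =
        ⨅ (E : Set (Fin d → ℝ)) (_ : MeasurableSet E)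
          (_ : E ⊆ {x : Fin d → ℝ | ∀ i, x i ∈ Set.Ioo (0:ℝ) 1})
          (_ : MeasureTheory.volume E = ENNReal.ofReal t),
          ⨆ (φ : (Fin d → ℝ) → (Fin d → ℝ)) (_ : ContDiff ℝ 1 φ)
            (_ : HasCompactSupport φ)
            (_ : tsupport φ ⊆ {x : Fin d → ℝ | ∀ i, x i ∈ Set.Ioo (0:ℝ) 1})
            (_ : ∀ x, ∑ i, (φ x i) ^ 2 ≤ 1),
            ENNReal.ofReal (∫ x in E, ∑ i, fderiv ℝ φ x (Pi.single i 1) i)) →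
      ∀ t ∈ Set.Icc (0:ℝ) 1, ∃ N : ℕ, ∀ d ≥ N, I d t = I N t := by
  intro hI
  obtain ⟨lam, P, H, C, hl0, hl1, hP, hH, hC, hlow, hev⟩ := h1
  obtain ⟨N, hN⟩ := hI Iprof (fun d t => rfl) lam ⟨hl0.le, hl1.le⟩
  obtain ⟨n, hn, hnP⟩ := hev N hN
  exact h4 n P H C lam hn hP hH hC hl0 hl1 (h2 P H C lam hC hlow)
    (h3 n lam P hn hl0 hl1 hP.le hnP)

end Pool.Agent.H194.Cube
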