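import Pool.Agent.H194.Cube.Main2
import Pool.Agent.H194.Cube.P.Mono
import Pool.Agent.H194.Cube.P.Compl
import Pool.Agent.H194.Cube.P.Prod
import Pool.Agent.H194.Cube.P.Box
import Pool.Agent.H194.Cube.P.OneD
import Pool.Agent.H194.Cube.P.Super
import Pool.Agent.H194.Cube.P.Touch
import Pool.Agent.H194.Cube.P.Coarea
import Pool.Agent.H194.Cube.P.Nm
import Pool.Agent.H194.Cube.P.BoxSym
import Pool.Agent.H194.Cube.P.HeatA
import Pool.Agent.H194.Cube.P.HeatB
import Pool.Agent.H194.Cube.P.HeatC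
import Pool.Agent.H194.Cube.P.HeatD
import Pool.Agent.H194.Cube.P.Gauss
import Pool.Agent.H194.Cube.P.Grad
import Pool.Agent.H194.Cube.P.L1
import Pool.Agent.H194.Cube.P.SY
import Pool.Agent.H194.Cube.P.W1
import Pool.Agent.H194.Cube.P.Sum
import Pool.Agent.H194.Cube.P.Diss
import Pool.Agent.H194.Cube.P.B1
import Pool.Agent.H194.Cube.P.B2
import Pool.Agent.H194.Cube.P.B
import Pool.Agent.H194.Cube.P.Pw
import Pool.Agent.H194.Cube.P.Glue
import Pool.Agent.H194.Cube.P.Field
import Pool.Agent.H194.Cube.P.Bad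
import Pool.Agent.H194.Cube.P.Mass
import Pool.Agent.H194.Cube.P.Clt

/-!
Assembly of the parts.
-/

set_option autoImplicit false

namespace Pool.Agent.H194.Cube

open Pool.Agent

theorem boxFacts : BoxFacts := H603.Cube.boxFacts
theorem symFacts : SymFacts := H603.Cube.symFacts
theorem gaussFacts : GaussFacts := H870.Cube.gaussFacts
theorem heatA : HeatA := H665.Cube.heatA boxFacts
theorem heatB : HeatB := H746.Cube.heatB boxFacts
theorem heatC : HeatC := H628.Cube.heatC boxFacts symFacts heatB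
theorem heatD : HeatD := H264.Cube.heatD boxFacts symFacts heatA
theorem s_grad : S_grad := H551.Cube.s_grad heatB heatC gaussFacts
theorem s_dec : S_dec := H34.Cube.dec heatA heatB heatD symFacts
theorem s_L1 : S_L1 := H34.Cube.L1 heatA boxFacts symFacts
theorem s_Y : S_Y := H111.Cube.sY heatA heatB heatC boxFacts symFacts gaussFacts s_grad s_dec
theorem s_clt : S_clt := H628.Clt.clt gaussFacts
theorem s_W1 : S_W1 := H997.Cube.W1 s_clt s_grad s_Y gaussFacts heatA heatB heatD
theorem s_field : S_field :=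
  H984.Cube.field H349.Cube.pw H323.Cube.glue H323.Cube.kappa symFacts
theorem s_sum : S_sum := H356.Cube.s_sum s_field H323.Cube.asq
theorem s_diss : S_diss := H356.Cube.s_diss heatA heatB heatC boxFacts symFacts
theorem s_b2 : S_b2 := H221.Cube.s_b2 heatA heatB heatC heatD boxFacts symFacts
theorem s_b1 : S_b1' := H825.Cube.b1
theorem s_b : S_b' := H551.CubeB.s_b s_b1 s_b2 heatA heatB heatD boxFacts symFacts
theorem s_bad : S_bad := H284.Cube.t_bad s_grad s_Y heatA heatB gaussFacts
theorem s_mass : S_mass := H996.Cube.mass s_L1 heatA heatB boxFacts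
theorem s_main : S_main :=
  main_of heatA heatB heatC gaussFacts s_b s_bad s_mass s_W1 s_diss s_dec s_sum
theorem s_super' : S_super' := H190.Cube.super'_of H696.Cube.s_oneD
theorem s_touch : S_touch :=
  H747.Cube.touch H551.CubeM.S_mono_proof H249.Cube.compl H196.Cube.s_prod H553.Cube.s_box
    H249.Cube.upper (H190.Cube.super_of s_super') s_super'

/-- the isoperimetric profile of the cube is not eventually constant in the dimension for some
volume -/
theorem main :
    ¬ ∀ I : ℕ → ℝ → ENNReal,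
      (∀ (d : ℕ) (t : ℝ), I d t =
        ⨅ (E : Set (Fin d → ℝ)) (_ : MeasurableSet E)
          (_ : E ⊆ {x : Fin d → ℝ | ∀ i, x i ∈ Set.Ioo (0:ℝ) 1})
          (_ : MeasureTheory.volume E = ENNReal.ofReal t),
          ⨆ (φ : (Fin d → ℝ) → (Fin d → ℝ)) (_ : ContDiff ℝ 1 φ)
            (_ : HasCompactSupport φ)
            (_ : tsupport φ ⊆ {x : Fin d → ℝ | ∀ i, x i ∈ Set.Ioo (0:ℝ) 1})
            (_ : ∀ x, ∑ i, (φ x i) ^ 2 ≤ 1),
            ENNReal.ofReal (∫ x in E, ∑ i, fderiv ℝ φ x (Pi.single i 1) i)) →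
      ∀ t ∈ Set.Icc (0:ℝ) 1, ∃ N : ℕ, ∀ d ≥ N, I d t = I N t :=
  not_main_of s_touch H404.Cube.coarea H726.Cube.s_nm s_main

end Pool.Agent.H194.Cube
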