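import Pool.Agent.H194.Cube.Defs

/-!
The interfaces `S_b1`, `S_b` with the (necessary) hypothesis `0 ≤ lam`.
-/

set_option autoImplicit false

namespace Pool.Agent.H194.Cube

open MeasureTheory Set Filter Topology ProbabilityTheory
open scoped ContDiff ENNReal

/-- approximate stationarity of near-minimisers under domain variations, `0 ≤ lam` -/
def S_b1' : Prop := ∀ P H C lam : ℝ, Hyp P H C lam → 0 ≤ P → 0 ≤ H → 0 ≤ C → 0 ≤ lam →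
  ∀ (n : ℕ) (K : ℝ), 1 ≤ n → 0 < K → ∃ A : ℝ, 0 ≤ A ∧
  ∀ (δ : ℝ) (E : Set (Fin n → ℝ)) (g : (Fin n → ℝ) → ℝ), 0 < δ → δ ≤ 1 → NearMin n lam P δ E g →
  ∀ X : Fin n → (Fin n → ℝ) → ℝ, (∀ i, ContDiff ℝ 1 (X i)) → (∀ i j x, |D (X i) j x| ≤ K) →
  (∀ i x, x i = 0 → X i x = 0) → (∀ i x, x i = 1 → X i x = 0) →
  |FV g X - H * ∫ x in Icc (0 : Fin n → ℝ) 1, g x * ∑ i, D (X i) i x| ≤ A * √δ

/-- approximate stationarity of `heat σ g`, `0 ≤ lam` -/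
def S_b' : Prop := ∀ P H C lam : ℝ, Hyp P H C lam → 0 ≤ P → 0 ≤ H → 0 ≤ C → 0 ≤ lam →
  ∀ (n : ℕ) (K : ℝ), 1 ≤ n → 0 < K → ∃ A : ℝ, 0 ≤ A ∧
  ∀ (δ : ℝ) (E : Set (Fin n → ℝ)) (g : (Fin n → ℝ) → ℝ), 0 < δ → δ ≤ 1 → NearMin n lam P δ E g →
  ∀ (σ : ℝ) (i : Fin n) (y : (Fin n → ℝ) → ℝ), 0 < σ → ContDiff ℝ 1 y → Per y → Odd' y i →
  (∀ j, j ≠ i → Evn y j) → (∀ x, gn y x ≤ K) →
  |fv (heat σ g) i y + H * ∫ x in Icc (0 : Fin n → ℝ) 1, D (heat σ g) i x * y x| ≤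
    A * √δ + 4 * K * (TV g - TV (heat σ g))

end Pool.Agent.H194.Cube
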