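import Pool.Agent.H194.Cube.Defs2

set_option autoImplicit false

namespace Pool.Agent.H194.Cube

open MeasureTheory Set Filter Topology ProbabilityTheory
open scoped ContDiff ENNReal

/-- limits -/
theorem lim_aux (a B δ₀ : ℝ) (h0 : 0 < δ₀) (h : ∀ δ, 0 < δ → δ < δ₀ → a ≤ B * √δ) : a ≤ 0 := by
  have h1 : Tendsto (fun δ : ℝ => B * √δ) (𝓝[>] 0) (𝓝 (B * √0)) :=
    ((Real.continuous_sqrt.tendsto 0).const_mul B).mono_left nhdsWithin_le_nhds
  rw [Real.sqrt_zero, mul_zero] at h1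
  refine ge_of_tendsto h1 ?_
  filter_upwards [Ioo_mem_nhdsGT h0] with δ hδ
  exact h δ hδ.1 hδ.2

theorem lim_aux2 (a : ℝ) (F : ℝ → ℝ) (hF : ContinuousAt F 0) (s₀ : ℝ) (h0 : 0 < s₀)
    (h : ∀ s, 0 < s → s < s₀ → F s ≤ a) : F 0 ≤ a := by
  have h1 : Tendsto F (𝓝[>] 0) (𝓝 (F 0)) := hF.tendsto.mono_left nhdsWithin_le_nhds
  refine le_of_tendsto h1 ?_
  filter_upwards [Ioo_mem_nhdsGT h0] with δ hδ
  exact h δ hδ.1 hδ.2

/-- cutoff in the levels -/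
theorem exists_chi (m0 : ℝ) (hm0 : m0 < 1) (hg : GaussFacts) : ∃ (χ : ℝ → ℝ) (c M : ℝ), 0 < c ∧
    ContDiff ℝ 1 χ ∧ (∀ t, 0 ≤ χ t ∧ χ t ≤ 1) ∧ (∀ t, |deriv χ t| ≤ M) ∧
    (∀ t, χ t ≠ 0 → 4 * c ≤ Iga t) ∧ m0 ≤ ∫ t in (0:ℝ)..1, χ t := by
  -- ε
  set ε : ℝ := min (1 / 8) ((1 - m0) / 8) with hε
  have hε0 : 0 < ε := by
    apply lt_min (by norm_num)
    linarith
  have hε1 : ε ≤ 1 / 8 := min_le_left _ _
  have hε2 : ε ≤ (1 - m0) / 8 := min_le_right _ _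
  let f : ContDiffBump (1 / 2 : ℝ) := ⟨1 / 2 - 2 * ε, 1 / 2 - ε, by linarith, by linarith⟩
  have hfs : ∀ t, f t ≠ 0 → t ∈ Icc ε (1 - ε) := by
    intro t ht
    have h1 : t ∈ Function.support f := ht
    rw [f.support_eq, Metric.mem_ball, Real.dist_eq] at h1
    have h2 : |t - 1 / 2| < 1 / 2 - ε := h1
    rw [abs_lt] at h2
    exact ⟨by linarith [h2.1], by linarith [h2.2]⟩
  have hf1 : ∀ t, t ∈ Icc (2 * ε) (1 - 2 * ε) → f t = 1 := by
    intro t ht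
    apply f.one_of_mem_closedBall
    rw [Metric.mem_closedBall, Real.dist_eq]
    show |t - 1 / 2| ≤ 1 / 2 - 2 * ε
    rw [abs_le]
    exact ⟨by linarith [ht.1], by linarith [ht.2]⟩
  have hfc : ContDiff ℝ 1 f := f.contDiff
  -- minimum of Iga
  obtain ⟨t0, ht0, hmin⟩ := (isCompact_Icc (a := ε) (b := 1 - ε)).exists_isMinOn
    ⟨ε, by constructor <;> linarith⟩ hg.iga_cont.continuousOn
  have hpos : 0 < Iga t0 := hg.iga_pos t0 (by linarith [ht0.1]) (by linarith [ht0.2])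
  -- bound of the derivative
  have hdc : Continuous (deriv f) := hfc.continuous_deriv (by norm_num)
  have hds : HasCompactSupport (deriv f) := f.hasCompactSupport.deriv
  obtain ⟨M, hM⟩ := hdc.bounded_above_of_compact_support hds
  refine ⟨f, Iga t0 / 4, M, by positivity, hfc, fun t => ⟨f.nonneg, f.le_one⟩, ?_, ?_, ?_⟩
  · intro t
    simpa [Real.norm_eq_abs] using hM t
  · intro t ht
    have := hmin (hfs t ht)
    simp only [mem_ofPred_eq] at this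
    linarith
  · have hci : ∀ a b : ℝ, IntervalIntegrable f volume a b := fun a b =>
      hfc.continuous.intervalIntegrable a b
    have h1 : ∫ t in (0:ℝ)..1, f t = (∫ t in (0:ℝ)..(2 * ε), f t) +
        (∫ t in (2 * ε)..(1 - 2 * ε), f t) + ∫ t in (1 - 2 * ε)..1, f t := by
      rw [intervalIntegral.integral_add_adjacent_intervals (hci _ _) (hci _ _),
        intervalIntegral.integral_add_adjacent_intervals (hci _ _) (hci _ _)]
    have h2 : ∫ t in (2 * ε)..(1 - 2 * ε), f t = 1 - 4 * ε := by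
      rw [intervalIntegral.integral_congr (g := fun _ => (1:ℝ))]
      · rw [intervalIntegral.integral_const, smul_eq_mul]; ring
      · intro t ht
        rw [uIcc_of_le (by linarith)] at ht
        exact hf1 t ht
    have h3 : 0 ≤ ∫ t in (0:ℝ)..(2 * ε), f t :=
      intervalIntegral.integral_nonneg (by linarith) fun t _ => f.nonneg
    have h4 : 0 ≤ ∫ t in (1 - 2 * ε)..1, f t :=
      intervalIntegral.integral_nonneg (by linarith) fun t _ => f.nonneg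
    rw [h1, h2]
    linarith

/-- cutoff in the size of the gradient -/
theorem exists_zeta (c : ℝ) (hc : 0 < c) : ∃ (ζ : ℝ → ℝ) (M : ℝ), ContDiff ℝ 1 ζ ∧
    (∀ t, 0 ≤ ζ t ∧ ζ t ≤ 1) ∧ (∀ t, |deriv ζ t| ≤ M) ∧ (∀ t, t ≤ c → ζ t = 0) ∧
    (∀ t, 2 * c ≤ t → ζ t = 1) := by
  let f : ContDiffBump (0 : ℝ) := ⟨c, 2 * c, hc, by linarith⟩
  refine ⟨fun t => Real.smoothTransition ((t - c) / c), ?_⟩
  have hcd : ContDiff ℝ 1 (fun t => Real.smoothTransition ((t - c) / c)) := by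
    have h1 : ContDiff ℝ 1 (fun t : ℝ => (t - c) / c) := by fun_prop
    exact (Real.smoothTransition.contDiff (n := 1)).comp h1
  have h0 : ∀ t, t ≤ c → Real.smoothTransition ((t - c) / c) = 0 := by
    intro t ht
    apply Real.smoothTransition.zero_of_nonpos
    apply div_nonpos_of_nonpos_of_nonneg <;> linarith
  have h1 : ∀ t, 2 * c ≤ t → Real.smoothTransition ((t - c) / c) = 1 := by
    intro t ht
    apply Real.smoothTransition.one_of_one_le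
    rw [le_div_iff₀ hc]
    linarith
  have hdc : Continuous (deriv fun t => Real.smoothTransition ((t - c) / c)) :=
    hcd.continuous_deriv (by norm_num)
  have hds : HasCompactSupport (deriv fun t => Real.smoothTransition ((t - c) / c)) := by
    apply HasCompactSupport.of_support_subset_isCompact (isCompact_Icc (a := c) (b := 2 * c))
    intro t ht
    by_contra hn
    rw [mem_Icc, not_and_or, not_le, not_le] at hn
    apply ht
    rcases hn with hn | hn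
    · have : (fun t => Real.smoothTransition ((t - c) / c)) =ᶠ[𝓝 t] fun _ => 0 := by
        filter_upwards [Iio_mem_nhds hn] with s hs
        exact h0 s (le_of_lt hs)
      rw [this.deriv_eq]
      simp
    · have : (fun t => Real.smoothTransition ((t - c) / c)) =ᶠ[𝓝 t] fun _ => 1 := by
        filter_upwards [Ioi_mem_nhds hn] with s hs
        exact h1 s (le_of_lt hs)
      rw [this.deriv_eq]
      simp
  obtain ⟨M, hM⟩ := hdc.bounded_above_of_compact_support hds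
  exact ⟨M, hcd, fun t => ⟨Real.smoothTransition.nonneg _, Real.smoothTransition.le_one _⟩,
    fun t => by simpa [Real.norm_eq_abs] using hM t, h0, h1⟩

/-- measurability of the cutoff -/
theorem continuous_gn {n : ℕ} (f : (Fin n → ℝ) → ℝ) (hf : ContDiff ℝ 1 f) : Continuous (gn f) := by
  unfold gn
  refine Real.continuous_sqrt.comp (continuous_finsetSum _ fun i _ => ?_)
  refine Continuous.pow ?_ 2
  unfold D
  exact (hf.continuous_fderiv (by norm_num)).clm_apply continuous_const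

/-- The estimate at one scale `σ ∈ [σ₀, σ₁]`. -/
theorem one_scale (P H C : ℝ) (n : ℕ) (hn : 1 ≤ n) (hP : 0 < P) (hH : 30 ≤ H) (hC : 0 ≤ C)
    (m q K K₀ A σ₀ σ₁ : ℝ) (hq : 0 < q) (hK : 0 < K)
    (hK₀ : K₀ = K / σ₀) (hσ₀ : 0 < σ₀) (hσ₁ : σ₁ ≤ 1 / 20)
    (δ : ℝ) (hδ : 0 < δ) (hδ1 : δ ≤ 1)
    (σ : ℝ) (hσ : σ ∈ Icc σ₀ σ₁) (D1 : ℝ) (hD0 : 0 ≤ D1)
    (hW : D1 * (1 - 2 * Real.pi * σ - Real.pi ^ 2 * σ ^ 2) ≤
      Real.pi ^ 2 * σ ^ 2 / 2 * (P + δ) + (1 + H + C) * δ + 25 * √δ)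
    (mass bad mainI S : ℝ)
    (hmass : m * P - 2 * (H + C) * (σ * (P + 1) + δ) ≤ mass)
    (hbad : bad ≤ D1 + √δ / σ)
    (hsum : q * mass ≤ mainI - S + K / σ * bad) (hbad0 : 0 ≤ bad)
    (hS : |S| ≤ n * (A * √δ + 4 * K₀ * D1)) :
    q * m * P - (2 * q * (H + C) * (P + 1) * σ₁ + (4 * n + 1) * K₀ * (10 * σ₁ ^ 2 * (P + 1)))
      - ((4 * n + 1) * K₀ * (2 * (26 + H + C)) + 2 * q * (H + C) + n * A + K₀ / σ₀) * √δ ≤ mainI := by
  have hσpos : 0 < σ := lt_of_lt_of_le hσ₀ hσ.1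
  have hσ1 : σ ≤ 1 / 20 := hσ.2.trans hσ₁
  have hsq : δ ≤ √δ := by
    have h1 : √δ ≤ 1 := by rw [Real.sqrt_le_one]; exact hδ1
    have h2 := Real.mul_self_sqrt hδ.le
    nlinarith [Real.sqrt_nonneg δ]
  have hs0 : 0 ≤ √δ := Real.sqrt_nonneg δ
  have hpi : Real.pi < 3.15 := Real.pi_lt_d2
  have hpi0 : 0 < Real.pi := Real.pi_pos
  have hpi2 : Real.pi ^ 2 ≤ 10 := by nlinarith
  have hn0 : (1:ℝ) ≤ n := by exact_mod_cast hn
  -- bound of D1
  have he : 1 / 2 ≤ 1 - 2 * Real.pi * σ - Real.pi ^ 2 * σ ^ 2 := by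
    have h1 : Real.pi * σ ≤ 3.15 * (1 / 20) := by
      apply mul_le_mul hpi.le hσ1 hσpos.le (by norm_num)
    have h2 : 0 < Real.pi * σ := by positivity
    nlinarith
  have hDb : D1 ≤ 10 * σ₁ ^ 2 * (P + 1) + 2 * (26 + H + C) * √δ := by
    have h1 : D1 * (1 / 2) ≤ D1 * (1 - 2 * Real.pi * σ - Real.pi ^ 2 * σ ^ 2) :=
      mul_le_mul_of_nonneg_left he hD0
    have h2 : σ ^ 2 ≤ σ₁ ^ 2 := pow_le_pow_left₀ hσpos.le hσ.2 2
    have h3 : Real.pi ^ 2 * σ ^ 2 / 2 * (P + δ) ≤ 10 * σ₁ ^ 2 / 2 * (P + 1) := by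
      apply mul_le_mul
      · have := mul_le_mul hpi2 h2 (sq_nonneg σ) (by norm_num : (0:ℝ) ≤ 10)
        linarith
      · linarith
      · linarith
      · positivity
    have h4 : (1 + H + C) * δ ≤ (1 + H + C) * √δ :=
      mul_le_mul_of_nonneg_left hsq (by linarith)
    linarith
  have hKσ : K / σ ≤ K₀ := by
    rw [hK₀]
    exact div_le_div_of_nonneg_left hK.le hσ₀ hσ.1
  have hK₀p : 0 < K₀ := by rw [hK₀]; positivity
  have h5 : K / σ * bad ≤ K₀ * (D1 + √δ / σ₀) := by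
    apply mul_le_mul hKσ _ hbad0 hK₀p.le
    refine hbad.trans ?_
    have : √δ / σ ≤ √δ / σ₀ := div_le_div_of_nonneg_left hs0 hσ₀ hσ.1
    linarith
  have h6 : -S ≤ n * (A * √δ + 4 * K₀ * D1) := (neg_le_abs S).trans hS
  have h7 : q * (m * P - 2 * (H + C) * (σ * (P + 1) + δ)) ≤ q * mass :=
    mul_le_mul_of_nonneg_left hmass hq.le
  have h8 : 2 * (H + C) * (σ * (P + 1) + δ) ≤ 2 * (H + C) * (σ₁ * (P + 1) + √δ) := by
    apply mul_le_mul_of_nonneg_left _ (by linarith)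
    have : σ * (P + 1) ≤ σ₁ * (P + 1) := mul_le_mul_of_nonneg_right hσ.2 (by linarith)
    linarith
  have h9 : q * (2 * (H + C) * (σ * (P + 1) + δ)) ≤ q * (2 * (H + C) * (σ₁ * (P + 1) + √δ)) :=
    mul_le_mul_of_nonneg_left h8 hq.le
  have h10 : (4 * n + 1) * K₀ * D1 ≤
      (4 * n + 1) * K₀ * (10 * σ₁ ^ 2 * (P + 1) + 2 * (26 + H + C) * √δ) :=
    mul_le_mul_of_nonneg_left hDb (by positivity)
  have h11 : K₀ * (D1 + √δ / σ₀) = K₀ * D1 + K₀ / σ₀ * √δ := by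
    field_simp
  rw [h11] at h5
  nlinarith

/-- The integrated estimate for a fixed near-minimiser. -/
theorem two_scales (hA : HeatA) (hB : HeatB) (hCf : HeatC)
    (hb : S_b') (hbad : S_bad) (hmass : S_mass) (hW1 : S_W1) (hdiss : S_diss) (hdec : S_dec)
    (n : ℕ) (P H C lam : ℝ) (hn : 1 ≤ n) (hP : 0 < P) (hH : 30 ≤ H) (hC : 0 ≤ C)
    (hl0 : 0 < lam) (hl1 : lam < 1) (hyp : Hyp P H C lam)
    (χ ζ : ℝ → ℝ) (c m p q K σ₀ σ₁ : ℝ) (hc : 0 < c) (hK : 0 < K)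
    (hq : q = p ^ 2 + 1 / n) (hq0 : 0 < q)
    (hχc : ContDiff ℝ 1 χ) (hζc : ContDiff ℝ 1 ζ) (hχ : ∀ t, 0 ≤ χ t ∧ χ t ≤ 1)
    (hζ : ∀ t, 0 ≤ ζ t ∧ ζ t ≤ 1) (hζ0 : ∀ t, t ≤ c → ζ t = 0)
    (hχI : ∀ t, χ t ≠ 0 → 4 * c ≤ Iga t) (hm : m = ∫ t in (0 : ℝ)..1, χ t) (hm2 : 1 / 2 ≤ m)
    (hsum : ∀ (σ : ℝ) (f : (Fin n → ℝ) → ℝ), 0 < σ → σ ≤ 1 → ContDiff ℝ ∞ f → Sym f →
      (∀ i x, |D f i x| ≤ 1 / σ) → (∀ i j x, |D (D f i) j x| ≤ 2 / σ ^ 2) →
      ∃ y : Fin n → (Fin n → ℝ) → ℝ,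
        (∀ i, ContDiff ℝ 1 (y i) ∧ Per (y i) ∧ Odd' (y i) i ∧ (∀ j, j ≠ i → Evn (y i) j) ∧
          ∀ x, gn (y i) x ≤ K / σ) ∧
        (p ^ 2 + 1 / n) * ∫ x in Icc (0 : Fin n → ℝ) 1, χ (f x) * gn f x ≤
          (∫ x in Icc (0 : Fin n → ℝ) 1, χ (f x) * ζ (σ * gn f x) * (Asq f x / gn f x)) -
          ∑ i, (fv f i (y i) + H * ∫ x in Icc (0 : Fin n → ℝ) 1, D f i x * y i x) +
          K / σ * ∫ x in Icc (0 : Fin n → ℝ) 1,
            (open Classical in if χ (f x) ≠ 0 ∧ σ * gn f x < 2 * c then gn f x else 0))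
    (hσ₀ : 0 < σ₀) (hσ01 : σ₀ < σ₁) (hσ₁ : σ₁ ≤ 1 / 20) :
    ∃ A : ℝ, 0 ≤ A ∧ ∀ (δ : ℝ) (E : Set (Fin n → ℝ)) (g : (Fin n → ℝ) → ℝ), 0 < δ → δ ≤ 1 →
      δ < lam → δ < 1 - lam → NearMin n lam P δ E g →
      (q * m * P - (2 * q * (H + C) * (P + 1) * σ₁ +
          (4 * n + 1) * (K / σ₀) * (10 * σ₁ ^ 2 * (P + 1)))
        - ((4 * n + 1) * (K / σ₀) * (2 * (26 + H + C)) + 2 * q * (H + C) + n * A +
          (K / σ₀) / σ₀) * √δ) * (σ₁ ^ 2 - σ₀ ^ 2) / 2 *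
          (1 - 2 * Real.pi * σ₁ - Real.pi ^ 2 * σ₁ ^ 2) ≤
        Real.pi ^ 2 * σ₁ ^ 2 / 2 * (P + δ) + (1 + H + C) * δ + 25 * √δ := by
  obtain ⟨A, hA0, hbA⟩ := hb P H C lam hyp hP.le (by linarith) hC hl0.le n (K / σ₀) hn
    (by positivity)
  refine ⟨A, hA0, ?_⟩
  intro δ E g hδ hδ1 hδl hδl' hnm
  have hn0 : (1:ℝ) ≤ n := by exact_mod_cast hn
  have hσ₁p : 0 < σ₁ := hσ₀.trans hσ01
  have hgc : Continuous g := hnm.smooth.continuous
  have hg1 : ContDiff ℝ 1 g := hnm.smooth.of_le (by exact_mod_cast le_top)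
  have hD0 : ∀ σ, 0 ≤ TV g - TV (heat σ g) := fun σ => by
    have := hdec n σ g hg1 hnm.sym
    linarith
  have hgM : ∀ y, |g y| ≤ 1 := fun y => by
    rw [abs_le]
    exact ⟨by linarith [(hnm.mem y).1], (hnm.mem y).2⟩
  set L : ℝ := q * m * P - (2 * q * (H + C) * (P + 1) * σ₁ +
          (4 * n + 1) * (K / σ₀) * (10 * σ₁ ^ 2 * (P + 1)))
        - ((4 * n + 1) * (K / σ₀) * (2 * (26 + H + C)) + 2 * q * (H + C) + n * A +
          (K / σ₀) / σ₀) * √δ with hL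
  have hpi0 : 0 < Real.pi := Real.pi_pos
  have hpi : Real.pi < 3.15 := Real.pi_lt_d2
  have he : 0 ≤ 1 - 2 * Real.pi * σ₁ - Real.pi ^ 2 * σ₁ ^ 2 := by
    have h1 : Real.pi * σ₁ ≤ 3.15 * (1 / 20) := mul_le_mul hpi.le hσ₁ hσ₁p.le (by norm_num)
    have h2 : 0 < Real.pi * σ₁ := by positivity
    nlinarith
  -- dissipation
  have hkey : L * (σ₁ ^ 2 - σ₀ ^ 2) / 2 ≤ TV (heat σ₀ g) - TV (heat σ₁ g) := by
    refine hdiss n g hnm.smooth hnm.sym σ₀ σ₁ L (c / σ₁) hσ₀ hσ01 (by positivity) ?_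
    intro σ hσ
    have hσp : 0 < σ := lt_of_lt_of_le hσ₀ hσ.1
    have hσle : σ ≤ 1 := by linarith [hσ.2]
    have hfs : ContDiff ℝ ∞ (heat σ g) := hB.smooth n σ g hnm.smooth hnm.sym.1
    have hf1 : ContDiff ℝ 1 (heat σ g) := hfs.of_le (by exact_mod_cast le_top)
    have hfsym : Sym (heat σ g) := ⟨hA.per n σ g hnm.sym.1, fun i => hA.evn n σ g i (hnm.sym.2 i)⟩
    obtain ⟨y, hy, hineq⟩ := hsum σ (heat σ g) hσp hσle hfs hfsym
      (fun i x => by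
        have := hCf.d1 n σ 1 g i x hσp hg1 hnm.sym.1 hgM
        simpa using this)
      (fun i j x => by
        have := hCf.d2 n σ 1 g i j x hσp hnm.smooth hnm.sym.1 hgM
        simpa using this)
    refine ⟨fun x => χ (heat σ g x) * ζ (σ * gn (heat σ g) x), ?_, ?_, ?_, ?_⟩
    · apply Continuous.measurable
      have h1 := continuous_gn _ hf1
      exact (hχc.continuous.comp hf1.continuous).mul
        (hζc.continuous.comp (continuous_const.mul h1))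
    · intro x
      have h1 := hχ (heat σ g x)
      have h2 := hζ (σ * gn (heat σ g) x)
      exact ⟨mul_nonneg h1.1 h2.1, mul_le_one₀ h1.2 h2.1 h2.2⟩
    · intro x hx
      have h1 : ζ (σ * gn (heat σ g) x) ≠ 0 := fun h => hx (by simp [h])
      have h2 : c < σ * gn (heat σ g) x := by
        by_contra hcon
        exact h1 (hζ0 _ (not_lt.1 hcon))
      have h3 : σ * gn (heat σ g) x ≤ σ₁ * gn (heat σ g) x :=
        mul_le_mul_of_nonneg_right hσ.2 (Real.sqrt_nonneg _)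
      rw [div_le_iff₀ hσ₁p]
      linarith
    · refine one_scale P H C n hn hP hH hC m q K (K / σ₀) A σ₀ σ₁ hq0 hK rfl hσ₀ hσ₁ δ hδ hδ1
        σ hσ (TV g - TV (heat σ g)) (hD0 σ)
        (hW1 P H C lam hyp hP.le (by linarith) hC hl0 hl1 n δ E g hn hδ hδ1 hδl hδl' hnm σ hσp hσle)
        (∫ x in Icc (0 : Fin n → ℝ) 1, χ (heat σ g x) * gn (heat σ g) x)
        (∫ x in Icc (0 : Fin n → ℝ) 1,
          (open Classical in if χ (heat σ g x) ≠ 0 ∧ σ * gn (heat σ g) x < 2 * c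
            then gn (heat σ g) x else 0)) _
        (∑ i, (fv (heat σ g) i (y i) +
          H * ∫ x in Icc (0 : Fin n → ℝ) 1, D (heat σ g) i x * y i x)) ?_ ?_ ?_ ?_ ?_
      · exact hmass P H C lam hyp hP.le (by linarith) hC hl0 hl1 n δ σ m χ E g hn hσp hδ hδ1
          hχc.continuous hχ hm hm2 hnm
      · exact hbad n lam P δ σ c χ E g hn hσp hδ hc hδl hδl' hl1 hχc.continuous hχI hnm
      · rw [hq]; exact hineq
      · apply integral_nonneg
        intro x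
        simp only [Pi.zero_apply]
        split_ifs
        · exact Real.sqrt_nonneg _
        · exact le_rfl
      · refine (Finset.abs_sum_le_sum_abs _ _).trans ?_
        have : ∀ i ∈ Finset.univ, |fv (heat σ g) i (y i) +
            H * ∫ x in Icc (0 : Fin n → ℝ) 1, D (heat σ g) i x * y i x| ≤
            A * √δ + 4 * (K / σ₀) * (TV g - TV (heat σ g)) := by
          intro i _
          obtain ⟨h1, h2, h3, h4, h5⟩ := hy i
          refine hbA δ E g hδ hδ1 hnm σ i (y i) hσp h1 h2 h3 h4 fun x => (h5 x).trans ?_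
          exact div_le_div_of_nonneg_left hK.le hσ₀ hσ.1
        refine (Finset.sum_le_sum this).trans ?_
        rw [Finset.sum_const, Finset.card_univ, Fintype.card_fin, nsmul_eq_mul]
  have h1 : L * (σ₁ ^ 2 - σ₀ ^ 2) / 2 ≤ TV g - TV (heat σ₁ g) := by
    have := hD0 σ₀
    linarith
  have h2 := hW1 P H C lam hyp hP.le (by linarith) hC hl0 hl1 n δ E g hn hδ hδ1 hδl hδl' hnm σ₁
    hσ₁p (by linarith)
  exact (mul_le_mul_of_nonneg_right h1 he).trans h2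

end Pool.Agent.H194.Cube
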