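import Pool.Agent.H194.Cube.Main

set_option autoImplicit false

namespace Pool.Agent.H194.Cube

open MeasureTheory Set Filter Topology ProbabilityTheory
open scoped ContDiff ENNReal

/-- **Main contradiction.** -/
theorem main_of (hA : HeatA) (hB : HeatB) (hCf : HeatC) (hg : GaussFacts)
    (hb : S_b') (hbad : S_bad) (hmass : S_mass) (hW1 : S_W1) (hdiss : S_diss) (hdec : S_dec)
    (hsum : S_sum) : S_main := by
  intro n P H C lam hn hP hH hC hl0 hl1 hyp hnm
  have hn0 : (1:ℝ) ≤ n := by exact_mod_cast hn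
  have hnp : (0:ℝ) < n := by linarith
  have hpi0 : 0 < Real.pi := Real.pi_pos
  have hpi3 : 3 < Real.pi := Real.pi_gt_three
  have hpi9 : 9 < Real.pi ^ 2 := by nlinarith only [hpi3]
  -- the parameters
  set ν : ℝ := 1 / (n : ℝ) with hν
  have hν0 : 0 < ν := by positivity
  have hν1 : ν ≤ 1 := by rw [hν, div_le_one hnp]; exact hn0
  set p : ℝ := √(Real.pi ^ 2 - ν / 4) with hp
  have hp2 : p ^ 2 = Real.pi ^ 2 - ν / 4 := Real.sq_sqrt (by linarith)
  have hp0 : 0 < p := Real.sqrt_pos.2 (by linarith)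
  have hppi : p < Real.pi := by
    by_contra h
    have : Real.pi ^ 2 ≤ p ^ 2 := pow_le_pow_left₀ hpi0.le (not_lt.1 h) 2
    linarith
  set q : ℝ := p ^ 2 + 1 / n with hq
  have hq1 : q = Real.pi ^ 2 + 3 * ν / 4 := by rw [hq, hp2]; ring
  have hq0 : 0 < q := by rw [hq1]; positivity
  set r : ℝ := Real.pi ^ 2 + ν / 2 with hr
  have hr0 : 0 < r := by positivity
  have hrq : r < q := by rw [hq1, hr]; linarith
  obtain ⟨χ, c, M₁, hc, hχc, hχ, hχM, hχI, hχm⟩ := exists_chi (r / q) (by rwa [div_lt_one hq0]) hg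
  obtain ⟨ζ, M₂, hζc, hζ, hζM, hζ0, hζ1⟩ := exists_zeta c hc
  set m : ℝ := ∫ t in (0 : ℝ)..1, χ t with hm
  have hqm : r ≤ q * m := by
    rw [div_le_iff₀ hq0] at hχm
    linarith
  have hm2 : 1 / 2 ≤ m := by
    refine le_trans ?_ hχm
    rw [le_div_iff₀ hq0, hq1, hr]
    linarith
  obtain ⟨K, hK, hsumK⟩ := hsum n H p c (max M₁ M₂) χ ζ hn hH hp0 hppi hc hχc hζc hχ hζ
    (fun t => (hχM t).trans (le_max_left _ _)) (fun t => (hζM t).trans (le_max_right _ _)) hζ0 hζ1
  -- κ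
  set κ2 : ℝ := ν / (4 * r) with hκ2
  have hκ20 : 0 < κ2 := by positivity
  have hκ21 : κ2 < 1 := by
    rw [hκ2, div_lt_one (by positivity), hr]
    linarith
  set κ : ℝ := √κ2 with hκ
  have hκ0 : 0 < κ := Real.sqrt_pos.2 hκ20
  have hκsq : κ ^ 2 = κ2 := Real.sq_sqrt hκ20.le
  have hκ1 : κ < 1 := by
    by_contra h
    have : 1 ^ 2 ≤ κ ^ 2 := pow_le_pow_left₀ (by norm_num) (not_lt.1 h) 2
    linarith
  have hrκ : r * (1 - κ2) = Real.pi ^ 2 + ν / 4 := by
    rw [hκ2]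
    field_simp
    rw [hr]
    ring
  set B : ℝ := 2 * q * (H + C) * (P + 1) + (4 * n + 1) * (K / κ) * (10 * (P + 1)) with hBB
  -- the inequality for all small σ₁
  have hfinal : ∀ s : ℝ, 0 < s → s < 1 / 20 →
      (r * P - B * s) * (1 - κ2) * (1 - 2 * Real.pi * s - Real.pi ^ 2 * s ^ 2) ≤
        Real.pi ^ 2 * P := by
    intro s hs hs1
    have hκs : κ * s < s := by
      have := mul_lt_mul_of_pos_right hκ1 hs
      rwa [one_mul] at this
    obtain ⟨A, hA0, hmain⟩ := two_scales hA hB hCf hb hbad hmass hW1 hdiss hdec n P H C lam hn hP hH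
      hC hl0 hl1 hyp χ ζ c m p q K (κ * s) s hc hK hq hq0 hχc hζc hχ hζ hζ0 hχI hm hm2 hsumK
      (by positivity) hκs hs1.le
    set e : ℝ := 1 - 2 * Real.pi * s - Real.pi ^ 2 * s ^ 2 with he
    have he0 : 0 ≤ e := by
      have hpi : Real.pi < 3.15 := Real.pi_lt_d2
      have h1 : Real.pi * s ≤ 3.15 * (1 / 20) := mul_le_mul hpi.le hs1.le hs.le (by norm_num)
      have h2 : 0 < Real.pi * s := by positivity
      rw [he]
      nlinarith only [h1, h2]
    set A₂ : ℝ := (4 * n + 1) * (K / (κ * s)) * (2 * (26 + H + C)) + 2 * q * (H + C) + n * A +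
          (K / (κ * s)) / (κ * s) with hA₂
    have hA₂0 : 0 ≤ A₂ := by
      have : 0 < κ * s := by positivity
      positivity
    have hBs : 2 * q * (H + C) * (P + 1) * s + (4 * n + 1) * (K / (κ * s)) * (10 * s ^ 2 * (P + 1)) =
        B * s := by
      rw [hBB]
      field_simp
    -- multiply out and let δ → 0
    have hsub : (r * P - B * s) * (1 - κ2) * e * (s ^ 2 / 2) - Real.pi ^ 2 * P * (s ^ 2 / 2) ≤ 0 := by
      refine lim_aux _ (A₂ * (s ^ 2 * (1 - κ2) / 2 * e) + Real.pi ^ 2 * s ^ 2 / 2 + (26 + H + C))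
        (min 1 (min lam (1 - lam))) (by
          refine lt_min (by norm_num) (lt_min hl0 (by linarith))) ?_
      intro δ hδ hδm
      have hδ1 : δ ≤ 1 := (hδm.trans_le (min_le_left _ _)).le
      have hδl : δ < lam := hδm.trans_le ((min_le_right _ _).trans (min_le_left _ _))
      have hδl' : δ < 1 - lam := hδm.trans_le ((min_le_right _ _).trans (min_le_right _ _))
      obtain ⟨E, g, hEg⟩ := hnm δ hδ
      have h1 := hmain δ E g hδ hδ1 hδl hδl' hEg
      rw [hBs] at h1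
      have hsq : δ ≤ √δ := by
        have h1 : √δ ≤ 1 := by rw [Real.sqrt_le_one]; exact hδ1
        have h2 := Real.mul_self_sqrt hδ.le
        nlinarith only [Real.sqrt_nonneg δ, h1, h2]
      have hs0 : 0 ≤ √δ := Real.sqrt_nonneg δ
      have e1 : s ^ 2 - (κ * s) ^ 2 = s ^ 2 * (1 - κ2) := by rw [mul_pow, hκsq]; ring
      rw [e1] at h1
      have hw : 0 ≤ s ^ 2 * (1 - κ2) / 2 * e := by
        have : 0 ≤ 1 - κ2 := by linarith
        positivity
      have h2 : (r * P - B * s - A₂ * √δ) * (s ^ 2 * (1 - κ2) / 2 * e) ≤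
          (q * m * P - B * s - A₂ * √δ) * (s ^ 2 * (1 - κ2) / 2 * e) := by
        apply mul_le_mul_of_nonneg_right _ hw
        have := mul_le_mul_of_nonneg_right hqm hP.le
        linarith
      have h3 : Real.pi ^ 2 * s ^ 2 / 2 * (P + δ) ≤ Real.pi ^ 2 * s ^ 2 / 2 * (P + √δ) :=
        mul_le_mul_of_nonneg_left (by linarith) (by positivity)
      have h4 : (1 + H + C) * δ ≤ (1 + H + C) * √δ := mul_le_mul_of_nonneg_left hsq (by linarith)
      have h5 : (q * m * P - B * s - A₂ * √δ) * (s ^ 2 * (1 - κ2)) / 2 * e =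
        (q * m * P - B * s - A₂ * √δ) * (s ^ 2 * (1 - κ2) / 2 * e) := by ring
      rw [h5] at h1
      linarith only [h1, h2, h3, h4]
    have hs2 : 0 < s ^ 2 / 2 := by positivity
    have h6 : ((r * P - B * s) * (1 - κ2) * e) * (s ^ 2 / 2) ≤ (Real.pi ^ 2 * P) * (s ^ 2 / 2) := by
      linarith
    exact le_of_mul_le_mul_right h6 hs2
  have hlim := lim_aux2 (Real.pi ^ 2 * P)
    (fun s => (r * P - B * s) * (1 - κ2) * (1 - 2 * Real.pi * s - Real.pi ^ 2 * s ^ 2))
    (by fun_prop) (1 / 20) (by norm_num) hfinal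
  have e2 : (r * P - B * 0) * (1 - κ2) * (1 - 2 * Real.pi * 0 - Real.pi ^ 2 * 0 ^ 2) =
      (Real.pi ^ 2 + ν / 4) * P := by
    rw [← hrκ]; ring
  simp only [e2] at hlim
  have hνP := mul_pos hν0 hP
  linarith only [hlim, hνP]

end Pool.Agent.H194.Cube
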